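import Pool.Agent.HAR.Stmts

/-!
# Row GLU of squad HAR: gluing embeddings
-/

namespace Pool.Agent.HAR.H83

open Finset

theorem isE_mono {n : ℕ} {G H : SimpleGraph (Fin n)} {I J : Finset (Fin n)} {f : Fin n → Fin n}
    (h : I ⊆ J) (hf : IsE G H J f) : IsE G H I f :=
  ⟨hf.1.mono (by exact_mod_cast h), fun x hx y hy => hf.2 x (h hx) y (h hy)⟩

theorem glu : GluStmt := by
  intro n G H A S hcov hsub hone hem
  choose a ha using hcov
  choose f hf using fun i => (hone i).1
  choose g hg using hem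
  have key : ∀ x y, IsE G H (S (a x) (a y)) (g (a x) (a y)) ∧ x ∈ S (a x) (a y) ∧
      y ∈ S (a x) (a y) ∧ f (a x) x = g (a x) (a y) x ∧ f (a y) y = g (a x) (a y) y := by
    intro x y
    have h1 := hsub (a x) (a y)
    have h2 := hg (a x) (a y)
    exact ⟨h2, h1.1 (ha x), h1.2 (ha y),
      (hone (a x)).2 _ _ (hf (a x)) (isE_mono h1.1 h2) x (ha x),
      (hone (a y)).2 _ _ (hf (a y)) (isE_mono h1.2 h2) y (ha y)⟩
  have hinj : Function.Injective fun x => f (a x) x := by
    intro x y hxy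
    obtain ⟨h1, hx, hy, h2, h3⟩ := key x y
    have hxy' : f (a x) x = f (a y) y := hxy
    rw [h2, h3] at hxy'
    exact h1.1 (by exact_mod_cast hx) (by exact_mod_cast hy) hxy'
  refine ⟨⟨Equiv.ofBijective _ (Finite.injective_iff_bijective.1 hinj), ?_⟩⟩
  intro x y
  obtain ⟨h1, hx, hy, h2, h3⟩ := key x y
  show H.Adj (f (a x) x) (f (a y) y) ↔ G.Adj x y
  rw [h2, h3]
  exact h1.2 x hx y hy

end Pool.Agent.HAR.H83
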